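import Mathlib
import Pool.Agent.R259.RS.Round

set_option autoImplicit false

/-!
# `∫ σ₁ ∫ σ₂ ≤ J (S ^ 3)` for rotationally symmetric metrics

A rotationally symmetric metric `dr ^ 2 + f (r) ^ 2 g_{S^2}` on `S ^ 3` or on `S ^ 2 × S ^ 1` is
given by its profile `f`. Its Ricci tensor has the eigenvalues `ricR = 2 Kr` (direction `∂_r`) and
`ricT = Kr + Kt` (twice), where `Kr = - f'' / f` and `Kt = (1 - f' ^ 2) / f ^ 2` are the sectional
curvatures; `lamR`, `lamT`, `lamT` are the eigenvalues of the Schouten tensor `Ric - (R / 4) g`, and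
the volume element is `4 π f ^ 2 dr`. All this is in `Pool.Agent.R259.RS.Base`.

The proof is a calibration. Let `m` be the maximum of `f` and `c = √(1 - f ^ 2 / m ^ 2)`. Positive
scalar curvature gives `|f'| ≤ 1`, and for a suitable function `ψ` the derivative of
`Φ = ψ (f) - (3 f' - f' ^ 3) / (3 f) - f f' / (2 m ^ 2)` minus the density of
`(∫ σ₂ + (1 / (2 m ^ 2)) ∫ σ₁) / (4 π)` is `(f' - c) ^ 2 (3 - f' ^ 2 - 2 c f') / (12 f ^ 2) ≥ 0`.
Integrating from both poles to the maximum gives
`∫ σ₂ + (1 / (2 m ^ 2)) ∫ σ₁ ≤ 3 π ^ 2 / m`, and the claim follows from the inequality between the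
arithmetic and the geometric mean.
-/

namespace Pool.Agent.Results.MP_9bd639_gt.RotationallySymmetric

open Set Pool.Agent.R259.RS

/-- **The inequality of Q1 for rotationally symmetric metrics.** -/
theorem result :
    -- metrics on `S ^ 3` with positive scalar curvature
    (∀ (f : ℝ → ℝ) (L : ℝ), IsSphere f L → (∀ r ∈ Ioo 0 L, 0 < scal f r) →
      total (sigma1 f) f L * total (sigma2 f) f L ≤ 9 * Real.pi ^ 4 / 2) ∧
    -- metrics on `S ^ 2 × S ^ 1` with positive scalar curvature
    (∀ (f : ℝ → ℝ) (L : ℝ), IsCircle f L → (∀ r, 0 < scal f r) →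
      0 < total (sigma1 f) f L ∧ total (sigma2 f) f L < 0 ∧
      total (sigma1 f) f L * total (sigma2 f) f L < 0) ∧
    -- the unit sphere
    (IsSphere Real.sin Real.pi ∧ (∀ r ∈ Ioo 0 Real.pi, 0 < scal Real.sin r) ∧
      total (sigma1 Real.sin) Real.sin Real.pi * total (sigma2 Real.sin) Real.sin Real.pi =
        9 * Real.pi ^ 4 / 2) := by
  refine ⟨fun f L h hs => h.J_le hs, fun f L h hs => ?_, isSphere_sin, fun r hr => ?_, ?_⟩
  · obtain ⟨h1, h2⟩ := h.signs hs
    exact ⟨h1, h2, mul_neg_of_pos_of_neg h1 h2⟩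
  · rw [scal_sin hr]
    norm_num
  · rw [total1_sin, total2_sin]
    ring

end Pool.Agent.Results.MP_9bd639_gt.RotationallySymmetric
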